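import Pool.Agent.W275.ND.Stm
import Pool.Agent.W275.UB.Fin8

set_option autoImplicit false

/-! Assembly of project ND. -/

namespace Pool.Agent.W275.ND

open MvPolynomial Pool.Agent.H936R2 Pool.Agent.H927R2.RD H294UB Pool.Agent.W275.UB

section systems

variable {N d : ℕ}

lemma tri_hom {R : Type} [CommRing R] (t : R) (i : Fin (N + 1)) :
    (tri t N d i).IsHomogeneous d := by
  unfold tri
  apply IsHomogeneous.add
  · have h := (isHomogeneous_C (Fin (N + 1)) t).mul (isHomogeneous_X_pow (R := R) i d)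
    rwa [zero_add] at h
  · split
    · exact isHomogeneous_X_pow _ _
    · exact isHomogeneous_zero _ _ _

lemma cyc_hom {R : Type} [CommRing R] (t : R) (i : Fin (N + 1)) :
    (cyc t N d i).IsHomogeneous d := by
  unfold cyc
  split
  · exact isHomogeneous_X_pow _ _
  · have h := (isHomogeneous_C (Fin (N + 1)) t).mul (isHomogeneous_X_pow (R := R) (0 : Fin (N + 1)) d)
    rwa [zero_add] at h

lemma tri_map {R R' : Type} [CommRing R] [CommRing R'] (φ : R →+* R') (t : R) (i : Fin (N + 1)) :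
    map φ (tri t N d i) = tri (φ t) N d i := by
  unfold tri
  split <;> simp

lemma cyc_map {R R' : Type} [CommRing R] [CommRing R'] (φ : R →+* R') (t : R) (i : Fin (N + 1)) :
    map φ (cyc t N d i) = cyc (φ t) N d i := by
  unfold cyc
  split <;> simp

/-- the coefficient vector of an integral system -/
noncomputable def cf (G : Fin (N + 1) → MvPolynomial (Fin (N + 1)) ℤ) (q : Idx (N + 1) d) : ℤ :=
  coeff (expo q.2) (G q.1)

lemma near_of_coeff {A : Type} [CommRing A] (K : Type) [Field K] [Algebra A K] (p : ℕ) (M : ℕ)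
    (G : Fin (N + 1) → MvPolynomial (Fin (N + 1)) ℤ) (hG : ∀ i, (G i).IsHomogeneous d)
    (b : Idx (N + 1) d → A) (hb : ∀ i, (p : A) ^ M ∣ b i - (cf (d := d) G i : A)) :
    ∃ R : Fin (N + 1) → MvPolynomial (Fin (N + 1)) A, (∀ i, (R i).IsHomogeneous d) ∧
      ∀ i, map (algebraMap A K) (sy b i) =
        near K (p : A) M (fun i => map (Int.castRingHom A) (G i)) R i := by
  choose r hr using hb
  refine ⟨fun i => form fun κ => r (i, κ), fun i => form_isHomogeneous _, fun i => ?_⟩
  rw [near]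
  congr 1
  have h1 : map (Int.castRingHom A) (G i) =
      form (fun κ : Mono (N + 1) d => ((cf (d := d) G (i, κ) : ℤ) : A)) := by
    conv_lhs => rw [← form_coeff (hG i)]
    rw [map_form]
    rfl
  rw [h1]
  show form (fun κ => b (i, κ)) = _
  have h2 : (C ((p : A) ^ M) : MvPolynomial (Fin (N + 1)) A) * form (fun κ => r (i, κ)) =
      form (fun κ : Mono (N + 1) d => (p : A) ^ M * r (i, κ)) := by
    rw [form, form, Finset.mul_sum]
    apply Finset.sum_congr rfl
    intro κ _
    rw [C_mul_monomial]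
  rw [h2, form, form, form, ← Finset.sum_add_distrib]
  apply Finset.sum_congr rfl
  intro κ _
  rw [← map_add]
  congr 1
  have := hr (i, κ)
  linear_combination this

end systems

section transfer

lemma pt_map {R R' : Type} [CommRing R] [CommRing R'] {n : ℕ} (φ : R →+* R')
    (P : Fin n → MvPolynomial (Fin n) R) (x : Fin n → R) :
    pt (fun i => map φ (P i)) (fun i => φ (x i)) = fun i => φ (pt P x i) := by
  funext i
  show eval _ (map φ (P i)) = φ (eval x (P i))
  rw [eval_map]
  exact (eval₂_comp φ x (P i)).symm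

lemma pt_iter_map {R R' : Type} [CommRing R] [CommRing R'] {n : ℕ} (φ : R →+* R')
    (P : Fin n → MvPolynomial (Fin n) R) (x : Fin n → R) (k : ℕ) :
    (pt (fun i => map φ (P i)))^[k] (fun i => φ (x i)) = fun i => φ ((pt P)^[k] x i) := by
  induction k with
  | zero => rfl
  | succ k ih => rw [Function.iterate_succ_apply', ih, pt_map, Function.iterate_succ_apply']

/-- a relation which holds after an embedding holds before -/
lemma rel_descend {L K : Type} [Field L] [Field K] (φ : L →+* K) {n : ℕ} (u w : Fin n → L)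
    (hu : u ≠ 0) (hw : w ≠ 0) (c : K) (h : (fun i => φ (u i)) = c • (fun i => φ (w i))) :
    ∃ c' : L, c' ≠ 0 ∧ u = c' • w := by
  apply prop_of_minors u w hu hw
  intro j k
  have h1 := minors_of_prop _ _ c h j k
  simp only [← map_mul, ← map_sub] at h1
  exact (map_eq_zero φ).1 h1

lemma map_ne_zero' {L K : Type} [Field L] [Field K] (φ : L →+* K) {n : ℕ} (u : Fin n → L)
    (hu : u ≠ 0) : (fun i => φ (u i)) ≠ 0 := by
  obtain ⟨i, hi⟩ := Function.ne_iff.1 hu
  intro h
  exact hi ((map_eq_zero φ).1 (congrFun h i))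

end transfer

/-- `S_ent` and `S_con`: the orbit of a preperiodic point ends in a fixed point -/
theorem esc (hent : S_ent) (hcon : S_con) (A : Type) [CommRing A] [IsDomain A]
    [IsDiscreteValuationRing A] (K : Type) [Field K] [Algebra A K] [IsFractionRing A K] (π t : A)
    (hπ : Irreducible π) (ht : π ∣ t) (N d : ℕ) (hN : 1 ≤ N) (hd : 2 ≤ d) (htd : ¬ π ^ d ∣ t)
    (R : Fin (N + 1) → MvPolynomial (Fin (N + 1)) A) (hR : ∀ i, (R i).IsHomogeneous d)
    (hhom : ∀ (c : K) (x : Fin (N + 1) → K) (k : ℕ),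
      (pt (near K t (2 * d + 2) (tri t N d) R))^[k] (c • x) =
        c ^ d ^ k • (pt (near K t (2 * d + 2) (tri t N d) R))^[k] x)
    (x : Fin (N + 1) → K) (hx : x ≠ 0)
    (hpre : ∃ m n : ℕ, m < n ∧ ∃ c : K, c ≠ 0 ∧
      (pt (near K t (2 * d + 2) (tri t N d) R))^[n] x =
        c • (pt (near K t (2 * d + 2) (tri t N d) R))^[m] x) :
    ∃ k, ∃ c : K, (pt (near K t (2 * d + 2) (tri t N d) R))^[k] x ≠ 0 ∧
      (pt (near K t (2 * d + 2) (tri t N d) R))^[k + 1] x =
        c • (pt (near K t (2 * d + 2) (tri t N d) R))^[k] x := by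
  set P := pt (near K t (2 * d + 2) (tri t N d) R) with hP
  obtain ⟨hne, k₀, hk₀⟩ := hent A K π t hπ ht N d hN hd htd R hR x hx
  obtain ⟨m, n, hmn, c, hc, hrel⟩ := hpre
  obtain ⟨l, hl, rfl⟩ : ∃ l, 0 < l ∧ n = m + l := ⟨n - m, by omega, by omega⟩
  -- all later iterates are periodic up to scaling
  have hper : ∀ j, P^[j + m + l] x = c ^ d ^ j • P^[j + m] x := by
    intro j
    rw [show j + m + l = j + (m + l) by ring, Function.iterate_add_apply, hrel, hhom,
      ← Function.iterate_add_apply]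
  set z := P^[k₀ + m] x with hz
  have hUz : ∀ k, InU π d (P^[k] z) := by
    intro k
    rw [hz, ← Function.iterate_add_apply]
    exact hk₀ _ (by omega)
  have hzl : P^[l] z = c ^ d ^ k₀ • z := by
    rw [hz, ← Function.iterate_add_apply, add_comm l]
    exact hper k₀
  obtain ⟨c', hc'⟩ := hcon A K π t hπ ht N d hN hd htd R hR z hUz
    ⟨l, hl, c ^ d ^ k₀, pow_ne_zero _ hc, hzl⟩
  refine ⟨k₀ + m, c', hne _, ?_⟩
  rw [Function.iterate_succ_apply']
  exact hc'

/-- the generic system over an extension of degree less than `d` has no preperiodic point -/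
theorem no_pre (heul : S_eul) (hspl : S_spl) (hlmk : S_lmk) (hent : S_ent) (hcon : S_con)
    (hnof : S_nof) {N d : ℕ} (hN : 1 ≤ N) (hd : 2 ≤ d) (O J : Type) [CommRing O] [IsDomain O]
    [Fintype J] (ω : Module.Basis J ℤ O) (L : Type) [Field L]
    [Algebra (EE (Idx (N + 1) d × J)) L] [FiniteDimensional (EE (Idx (N + 1) d × J)) L]
    (hL : Module.finrank (EE (Idx (N + 1) d × J)) L < d * Fintype.card J) (σ : O →+* L)
    (x : Fin (N + 1) → L) (hx : x ≠ 0)
    (hit0 : ∀ k, (pt (sy (cv (fun j => σ (ω j)) fun q =>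
      gn (Idx (N + 1) d × J) L (X q))))^[k] x ≠ 0)
    (hpre : ∃ m n : ℕ, m < n ∧ ∃ c : L, c ≠ 0 ∧
      (pt (sy (cv (fun j => σ (ω j)) fun q => gn (Idx (N + 1) d × J) L (X q))))^[n] x =
        c • (pt (sy (cv (fun j => σ (ω j)) fun q => gn (Idx (N + 1) d × J) L (X q))))^[m] x) :
    False := by
  obtain ⟨p, hp, ⟨σ₀⟩⟩ := hspl O J ω
  set v : Idx (N + 1) d → L := cv (fun j => σ (ω j)) fun q => gn (Idx (N + 1) d × J) L (X q)
    with hv
  -- the key: a local model gives the mapped system in the form `near`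
  have key : ∀ G : Fin (N + 1) → MvPolynomial (Fin (N + 1)) ℤ, (∀ i, (G i).IsHomogeneous d) →
      ∃ (K' : Type) (_ : Field K') (φ : L →+* K') (A : Type) (_ : CommRing A) (_ : IsDomain A)
        (_ : IsDiscreteValuationRing A) (_ : Algebra A K') (_ : IsFractionRing A K') (π : A)
        (R : Fin (N + 1) → MvPolynomial (Fin (N + 1)) A), Irreducible π ∧ π ∣ (p : A) ∧
        ¬ π ^ d ∣ (p : A) ∧ (∀ i, (R i).IsHomogeneous d) ∧
        (fun i => map φ (sy v i)) = near K' (p : A) (2 * d + 2)
          (fun i => map (Int.castRingHom A) (G i)) R := by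
    intro G hG
    obtain ⟨K', _, φ, A, _, _, _, _, _, π, b, h1, h2, h3, h4, h5⟩ :=
      hlmk O J ω p σ₀ (Idx (N + 1) d) (cf (d := d) G) 0 (2 * d + 2) d L σ hL
    obtain ⟨R, hR, hR2⟩ := near_of_coeff K' p (2 * d + 2) G hG b h5
    refine ⟨K', inferInstance, φ, A, inferInstance, inferInstance, inferInstance, inferInstance,
      inferInstance, π, R, h1, h2, h3, hR, ?_⟩
    funext i
    rw [← hR2 i]
    have h6 := congrFun (map_sy φ v) i
    have h7 := congrFun (map_sy (algebraMap A K') b) i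
    show map φ (sy v i) = map (algebraMap A K') (sy b i)
    rw [show map φ (sy v i) = sy (fun i => φ (v i)) i from h6,
      show map (algebraMap A K') (sy b i) = sy (fun i => algebraMap A K' (b i)) i from h7]
    congr 1
    funext q
    rw [h4 q, pow_zero, one_mul]
  -- first model
  obtain ⟨K', _, φ, A, _, _, _, _, _, π, R, h1, h2, h3, hR, hnear⟩ :=
    key (fun i => tri (p : ℤ) N d i) (fun i => tri_hom _ i)
  have htri : (fun i => map (Int.castRingHom A) (tri (p : ℤ) N d i)) = tri (p : A) N d := by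
    funext i
    rw [tri_map, eq_intCast, Int.cast_natCast]
  rw [htri] at hnear
  have hhom : ∀ (c : K') (x : Fin (N + 1) → K') (k : ℕ),
      (pt (near K' (p : A) (2 * d + 2) (tri (p : A) N d) R))^[k] (c • x) =
        c ^ d ^ k • (pt (near K' (p : A) (2 * d + 2) (tri (p : A) N d) R))^[k] x := by
    intro c x k
    apply iter_smul _ _ heul
    intro i
    rw [← hnear]
    exact (sy_hom v i).map φ
  obtain ⟨m, n, hmn, c, hc, hrel⟩ := hpre
  obtain ⟨k, c', hk0, hk⟩ := esc hent hcon A K' π (p : A) h1 h2 N d hN hd h3 R hR hhom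
    (fun i => φ (x i)) (map_ne_zero' φ x hx) ⟨m, n, hmn, φ c, (map_ne_zero φ).2 hc, by
      rw [← hnear, pt_iter_map, pt_iter_map, hrel]
      funext i
      show φ (c * _) = φ c * _
      rw [map_mul]⟩
  rw [← hnear, pt_iter_map, pt_iter_map] at hk
  obtain ⟨c1, hc1, hfix⟩ := rel_descend φ _ _ (hit0 (k + 1)) (hit0 k) c' hk
  rw [Function.iterate_succ_apply'] at hfix
  -- second model
  obtain ⟨K2, _, φ2, A2, _, _, _, _, _, π2, R2, g1, g2, g3, hR2, hnear2⟩ :=
    key (fun i => cyc (p : ℤ) N d i) (fun i => cyc_hom _ i)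
  have hcyc : (fun i => map (Int.castRingHom A2) (cyc (p : ℤ) N d i)) = cyc (p : A2) N d := by
    funext i
    rw [cyc_map, eq_intCast, Int.cast_natCast]
  rw [hcyc] at hnear2
  apply hnof A2 K2 π2 (p : A2) g1 g2 N d hN hd g3 R2 hR2
    (fun i => φ2 ((pt (sy v))^[k] x i)) (φ2 c1) (map_ne_zero' φ2 _ (hit0 k))
  rw [← hnear2, pt_map, hfix]
  funext i
  show φ2 (c1 * _) = φ2 c1 * _
  rw [map_mul]

end Pool.Agent.W275.ND
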