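import Pool.Agent.W902.ND.Contr
import Pool.Agent.W275.ND.Asm

/-! Orbits of the systems close to the triangular system enter `U`. -/

set_option autoImplicit false

namespace Pool.Agent.W275.ND

open MvPolynomial Pool.Agent.H936R2 Pool.Agent.W902.ND

section

variable {A K : Type} [CommRing A] [IsDomain A] [IsDiscreteValuationRing A] [Field K] [Algebra A K]
  [IsFractionRing A K] {N d : ℕ}

/-- the largest index of a unit coordinate is `j` -/
def St1 (π : A) (j : Fin (N + 1)) (z : Fin (N + 1) → K) : Prop :=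
  ∃ (c : K) (w : Fin (N + 1) → A), c ≠ 0 ∧ IsUnit (w j) ∧ (∀ i, j < i → π ∣ w i) ∧
    z = c • (fun i => algebraMap A K (w i))

/-- the last `k` coordinates are divisible by `π ^ d`, all but the first by `π` -/
def St2 (π : A) (d k : ℕ) (z : Fin (N + 1) → K) : Prop :=
  ∃ (c : K) (w : Fin (N + 1) → A), c ≠ 0 ∧ w 0 = 1 ∧ (∀ i, i ≠ 0 → π ∣ w i) ∧
    (∀ i : Fin (N + 1), i ≠ 0 → N < (i : ℕ) + k → π ^ d ∣ w i) ∧
    z = c • (fun i => algebraMap A K (w i))

lemma unit_of {π a x : A} (hπ : Irreducible π) (ha : IsUnit a) (hx : π ∣ x) : IsUnit (a + x) := by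
  have h : IsUnit ((a + x) + -x) := by rwa [add_neg_cancel_right]
  rcases IsLocalRing.isUnit_or_isUnit_of_isUnit_add h with h1 | h1
  · exact h1
  · exact absurd (isUnit_of_dvd_unit (hx.neg_right) h1) hπ.not_isUnit

lemma P_eq (t : A) (R : Fin (N + 1) → MvPolynomial (Fin (N + 1)) A)
    (hR : ∀ i, (R i).IsHomogeneous d) (c : K) (w : Fin (N + 1) → A) :
    pt (near K t (2 * d + 2) (tri t N d) R) (c • (fun i => algebraMap A K (w i))) =
      c ^ d • (fun i => algebraMap A K (eval w (gg t N d R i))) := by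
  funext i
  have h1 : (near K t (2 * d + 2) (tri t N d) R i).IsHomogeneous d := by
    unfold near
    refine IsHomogeneous.map ?_ _
    refine (tri_hom t i).add ?_
    have h := (isHomogeneous_C (Fin (N + 1)) (t ^ (2 * d + 2))).mul (hR i)
    rwa [zero_add] at h
  show eval _ (near K t (2 * d + 2) (tri t N d) R i) = _
  rw [eval_smul_hom h1, Pi.smul_apply, smul_eq_mul]
  congr 1
  show eval _ (map (algebraMap A K) (gg t N d R i)) = _
  rw [eval_map]
  exact (eval₂_comp (algebraMap A K) w (gg t N d R i)).symm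

lemma st1_zero_ne {π : A} {j : Fin (N + 1)} {z : Fin (N + 1) → K} (h : St1 π j z) : z ≠ 0 := by
  obtain ⟨c, w, hc, hw, -, rfl⟩ := h
  intro h0
  have h1 := congrFun h0 j
  simp only [Pi.smul_apply, smul_eq_mul, Pi.zero_apply, mul_eq_zero] at h1
  rcases h1 with h1 | h1
  · exact hc h1
  · have h2 : w j = 0 := (injective_iff_map_eq_zero _).1 (IsFractionRing.injective A K) _ h1
    rw [h2] at hw
    exact not_isUnit_zero hw

lemma st2_ne {π : A} {k : ℕ} {z : Fin (N + 1) → K} (h : St2 π d k z) : z ≠ 0 := by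
  obtain ⟨c, w, hc, hw, -, -, rfl⟩ := h
  intro h0
  have h1 := congrFun h0 0
  simp only [Pi.smul_apply, smul_eq_mul, Pi.zero_apply, mul_eq_zero] at h1
  rcases h1 with h1 | h1
  · exact hc h1
  · rw [hw, map_one] at h1
    exact one_ne_zero h1

variable {π t : A} (hπ : Irreducible π) (hπt : π ∣ t) (hN : 1 ≤ N) (hd : 2 ≤ d)
  (htd : ¬ π ^ d ∣ t) (R : Fin (N + 1) → MvPolynomial (Fin (N + 1)) A)
  (hR : ∀ i, (R i).IsHomogeneous d)

include hπ in
lemma st1_of_ne (z : Fin (N + 1) → K) (hz : z ≠ 0) : ∃ j, St1 π j z := by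
  classical
  -- write the coordinates over a common denominator and divide by the largest power of `π`
  obtain ⟨s, hs⟩ := IsLocalization.exist_integer_multiples_of_finite (nonZeroDivisors A) z
  choose w hw using hs
  have hw0 : ∃ i, w i ≠ 0 := by
    by_contra h
    push Not at h
    apply hz
    funext i
    have h1 := hw i
    rw [h i, map_zero] at h1
    have h2 : ((s : A) • z i) = algebraMap A K s * z i := Algebra.smul_def _ _
    rw [h2] at h1
    have h3 : algebraMap A K (s : A) ≠ 0 :=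
      IsFractionRing.to_map_ne_zero_of_mem_nonZeroDivisors s.2
    exact (mul_eq_zero.1 h1.symm).resolve_left h3
  obtain ⟨i0, hi0⟩ := hw0
  -- the largest `m` such that `π ^ m` divides all coordinates
  obtain ⟨a0, u0, hu0⟩ := IsDiscreteValuationRing.eq_unit_mul_pow_irreducible hi0 hπ
  have hbd : ∀ m, (∀ i, π ^ m ∣ w i) → m ≤ a0 := by
    intro m hm
    have h1 := hm i0
    rw [hu0] at h1
    have h2 : π ^ m ∣ π ^ a0 := (Units.dvd_mul_left).1 h1
    exact (pow_dvd_pow_iff hπ.ne_zero hπ.not_isUnit).1 h2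
  obtain ⟨m, hm, hmax⟩ : ∃ m, (∀ i, π ^ m ∣ w i) ∧ ¬ ∀ i, π ^ (m + 1) ∣ w i := by
    by_contra hcon
    push Not at hcon
    have hall : ∀ m, ∀ i, π ^ m ∣ w i := by
      intro m
      induction m with
      | zero => intro i; rw [pow_zero]; exact one_dvd _
      | succ m ih => exact hcon m ih
    have := hbd (a0 + 1) (hall _)
    omega
  choose w' hw' using hm
  have hunit : ∃ i, IsUnit (w' i) := by
    by_contra h
    push Not at h
    apply hmax
    intro i
    have h1 : π ∣ w' i := by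
      have h2 : w' i ∈ IsLocalRing.maximalIdeal A := (IsLocalRing.mem_maximalIdeal _).2 (h i)
      rwa [hπ.maximalIdeal_eq, Ideal.mem_span_singleton] at h2
    rw [hw' i, pow_succ]
    exact mul_dvd_mul_left _ h1
  -- the largest index of a unit
  have hne : (Finset.univ.filter fun i => IsUnit (w' i)).Nonempty := by
    obtain ⟨i, hi⟩ := hunit
    exact ⟨i, Finset.mem_filter.2 ⟨Finset.mem_univ _, hi⟩⟩
  refine ⟨(Finset.univ.filter fun i => IsUnit (w' i)).max' hne,
    (algebraMap A K s)⁻¹ * algebraMap A K (π ^ m), w', ?_, ?_, ?_, ?_⟩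
  · exact mul_ne_zero (inv_ne_zero (IsFractionRing.to_map_ne_zero_of_mem_nonZeroDivisors s.2))
      (by
        rw [Ne, map_eq_zero_iff _ (IsFractionRing.injective A K)]
        exact pow_ne_zero _ hπ.ne_zero)
  · exact (Finset.mem_filter.1 (Finset.max'_mem _ hne)).2
  · intro i hi
    have h1 : ¬ IsUnit (w' i) := by
      intro h
      exact absurd (Finset.le_max' _ i (Finset.mem_filter.2 ⟨Finset.mem_univ _, h⟩)) (not_le.2 hi)
    have h2 : w' i ∈ IsLocalRing.maximalIdeal A := (IsLocalRing.mem_maximalIdeal _).2 h1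
    rwa [hπ.maximalIdeal_eq, Ideal.mem_span_singleton] at h2
  · funext i
    have h1 := hw i
    rw [hw' i] at h1
    have h2 : ((s : A) • z i) = algebraMap A K s * z i := Algebra.smul_def _ _
    rw [h2, map_mul] at h1
    have h3 : algebraMap A K (s : A) ≠ 0 :=
      IsFractionRing.to_map_ne_zero_of_mem_nonZeroDivisors s.2
    simp only [Pi.smul_apply, smul_eq_mul]
    rw [mul_assoc, h1, inv_mul_cancel_left₀ h3]

include hπ hπt hd hR in
lemma st1_step (j j' : Fin (N + 1)) (hj : (j' : ℕ) + 1 = j) (z : Fin (N + 1) → K)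
    (h : St1 π j z) : St1 π j' (pt (near K t (2 * d + 2) (tri t N d) R) z) := by
  obtain ⟨c, w, hc, hw, hlt, rfl⟩ := h
  have htM : π ∣ t ^ (2 * d + 2) := hπt.trans (dvd_pow_self _ (by omega))
  refine ⟨c ^ d, fun i => eval w (gg t N d R i), pow_ne_zero _ hc, ?_, ?_, P_eq t R hR c w⟩
  · show IsUnit (eval w (gg t N d R j'))
    rw [eval_gg]
    have hlt' : (j' : ℕ) + 1 < N + 1 := by rw [hj]; exact j.2
    rw [dif_pos hlt']
    have hjj : (⟨(j' : ℕ) + 1, hlt'⟩ : Fin (N + 1)) = j := Fin.ext hj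
    rw [hjj]
    have e : t * w j' ^ d + w j ^ d + t ^ (2 * d + 2) * eval w (R j') =
        w j ^ d + (t * w j' ^ d + t ^ (2 * d + 2) * eval w (R j')) := by ring
    rw [e]
    exact unit_of hπ (hw.pow d) ((hπt.mul_right _).add (htM.mul_right _))
  · intro i hi
    show π ∣ eval w (gg t N d R i)
    rw [eval_gg]
    refine ((hπt.mul_right _).add ?_).add (htM.mul_right _)
    split_ifs with h1
    · apply dvd_pow (hlt _ _) (by omega)
      rw [Fin.lt_def] at hi ⊢
      simp only
      omega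
    · exact dvd_zero _

lemma st2_of_st1 (z : Fin (N + 1) → K) (h : St1 π 0 z) : St2 π d 0 z := by
  obtain ⟨c, w, hc, hw, hlt, rfl⟩ := h
  obtain ⟨u, hu⟩ := hw
  refine ⟨c * algebraMap A K u, fun i => (u⁻¹ : Aˣ) * w i, ?_, ?_, ?_, ?_, ?_⟩
  · refine mul_ne_zero hc ?_
    rw [Ne, map_eq_zero_iff _ (IsFractionRing.injective A K)]
    exact u.ne_zero
  · simp only
    rw [← hu, Units.inv_mul]
  · intro i hi
    exact (hlt i (Fin.pos_of_ne_zero hi)).mul_left _
  · intro i hi hN
    have := i.2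
    omega
  · funext i
    simp only [Pi.smul_apply, smul_eq_mul]
    rw [mul_assoc, ← map_mul, ← mul_assoc, Units.mul_inv, one_mul]

include hπ htd in
lemma t_dvd : t ∣ π ^ (d - 1) := by
  have ht0 : t ≠ 0 := fun h => htd (h ▸ dvd_zero _)
  obtain ⟨a, u, rfl⟩ := IsDiscreteValuationRing.eq_unit_mul_pow_irreducible ht0 hπ
  have ha : a < d := by
    by_contra hle
    exact htd ((pow_dvd_pow π (not_lt.mp hle)).mul_left _)
  exact Units.mul_left_dvd.2 (pow_dvd_pow π (by omega))

include hπ hπt hd htd hR in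
lemma st2_step (k : ℕ) (z : Fin (N + 1) → K) (h : St2 π d k z) :
    St2 π d (k + 1) (pt (near K t (2 * d + 2) (tri t N d) R) z) := by
  obtain ⟨c, w, hc, hw0, hw1, hw2, rfl⟩ := h
  have ht0 : t ≠ 0 := fun h => htd (h ▸ dvd_zero _)
  obtain ⟨b, hb⟩ := t_dvd hπ htd
  -- the term with the next coordinate
  have hnext : ∀ i : Fin (N + 1), ∃ x : A,
      (if h : (i : ℕ) + 1 < N + 1 then w ⟨(i : ℕ) + 1, h⟩ ^ d else 0) = t * x ∧ π ∣ x ∧
      (N < (i : ℕ) + (k + 1) → π ^ d ∣ x) := by
    intro i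
    split_ifs with h1
    · have hne : (⟨(i : ℕ) + 1, h1⟩ : Fin (N + 1)) ≠ 0 := by
        intro h0
        have := congrArg Fin.val h0
        simp at this
      obtain ⟨y, hy⟩ := hw1 _ hne
      have e : w ⟨(i : ℕ) + 1, h1⟩ ^ d = t * (b * y ^ (d - 1) * w ⟨(i : ℕ) + 1, h1⟩) := by
        obtain ⟨m, rfl⟩ : ∃ m, d = m + 1 := ⟨d - 1, by omega⟩
        simp only [Nat.add_sub_cancel] at hb ⊢
        rw [pow_succ]
        have e2 : w ⟨(i : ℕ) + 1, h1⟩ ^ m = t * (b * y ^ m) := by
          rw [hy, mul_pow, hb]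
          ring
        rw [e2]
        ring
      refine ⟨_, e, (hw1 _ hne).mul_left _, fun hk => (hw2 _ hne ?_).mul_left _⟩
      simp only
      omega
    · exact ⟨0, by ring, dvd_zero _, fun _ => dvd_zero _⟩
  choose x hx1 hx2 hx3 using hnext
  have hval : ∀ i, eval w (gg t N d R i) =
      t * (w i ^ d + x i + t ^ (2 * d + 1) * eval w (R i)) := by
    intro i
    rw [eval_gg, hx1]
    ring
  have hu : IsUnit (w 0 ^ d + x 0 + t ^ (2 * d + 1) * eval w (R 0)) := by
    rw [hw0, one_pow, add_assoc]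
    apply unit_of hπ isUnit_one
    exact (hx2 0).add ((hπt.trans (dvd_pow_self _ (by omega))).mul_right _)
  obtain ⟨u, hu⟩ := hu
  refine ⟨c ^ d * algebraMap A K (t * u),
    fun i => (u⁻¹ : Aˣ) * (w i ^ d + x i + t ^ (2 * d + 1) * eval w (R i)), ?_, ?_, ?_, ?_, ?_⟩
  · refine mul_ne_zero (pow_ne_zero _ hc) ?_
    rw [Ne, map_eq_zero_iff _ (IsFractionRing.injective A K)]
    exact mul_ne_zero ht0 u.ne_zero
  · simp only
    rw [← hu, Units.inv_mul]
  · intro i hi
    refine Dvd.dvd.mul_left ?_ _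
    exact ((dvd_pow (hw1 i hi) (by omega)).add (hx2 i)).add
      ((hπt.trans (dvd_pow_self _ (by omega))).mul_right _)
  · intro i hi hk
    refine Dvd.dvd.mul_left ?_ _
    refine ((pow_dvd_pow_of_dvd (hw1 i hi) d).add (hx3 i hk)).add (Dvd.dvd.mul_right ?_ _)
    exact (pow_dvd_pow π (by omega)).trans (pow_dvd_pow_of_dvd hπt _)
  · rw [P_eq t R hR]
    funext i
    simp only [Pi.smul_apply, smul_eq_mul]
    rw [hval, mul_assoc, ← map_mul]
    congr 2
    rw [mul_assoc t, ← mul_assoc (u : A), Units.mul_inv, one_mul]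

end

theorem ent : S_ent := by
  intro A _ _ _ K _ _ _ π t hπ hπt N d hN hd htd R hR x hx
  set P := pt (near K t (2 * d + 2) (tri t N d) R) with hP
  obtain ⟨j, hj⟩ := st1_of_ne hπ x hx
  -- stage 1
  have hst1 : ∀ (n : ℕ) (j : Fin (N + 1)), (j : ℕ) = n → ∀ z : Fin (N + 1) → K, St1 π j z →
      ∀ m ≤ n, ∃ j' : Fin (N + 1), (j' : ℕ) + m = n ∧ St1 π j' (P^[m] z) := by
    intro n j hjn z hz m
    induction m with
    | zero => intro _; exact ⟨j, by omega, hz⟩
    | succ m ih =>
      intro hm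
      obtain ⟨j1, hj1, hs⟩ := ih (by omega)
      have hlt : (j1 : ℕ) - 1 < N + 1 := by have := j1.2; omega
      refine ⟨⟨(j1 : ℕ) - 1, hlt⟩, by simp only; omega, ?_⟩
      rw [Function.iterate_succ_apply']
      exact st1_step hπ hπt hd R hR j1 ⟨(j1 : ℕ) - 1, hlt⟩ (by simp only; omega) _ hs
  obtain ⟨j0, hj0, hs0⟩ := hst1 j j rfl x hj j le_rfl
  have hj00 : j0 = 0 := Fin.ext (by simp only [Fin.val_zero]; omega)
  rw [hj00] at hs0
  have hs2 : ∀ k, St2 π d k (P^[(j : ℕ) + k] x) := by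
    intro k
    induction k with
    | zero => exact st2_of_st1 _ hs0
    | succ k ih =>
      rw [← add_assoc, Function.iterate_succ_apply']
      exact st2_step hπ hπt hd htd R hR k _ ih
  refine ⟨fun k => ?_, (j : ℕ) + N, fun k hk => ?_⟩
  · rcases le_total k (j : ℕ) with hk | hk
    · obtain ⟨j', -, h⟩ := hst1 j j rfl x hj k hk
      exact st1_zero_ne h
    · obtain ⟨m, rfl⟩ := Nat.exists_eq_add_of_le hk
      exact st2_ne (hs2 m)
  · obtain ⟨m, rfl⟩ := Nat.exists_eq_add_of_le hk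
    have h := hs2 (N + m)
    rw [← add_assoc] at h
    obtain ⟨c, w, hc, hw0, -, hw2, hz⟩ := h
    refine ⟨c, w, hc, hw0, fun i hi => hw2 i hi ?_, hz⟩
    have : 0 < (i : ℕ) := by
      rcases Nat.eq_zero_or_pos (i : ℕ) with h | h
      · exact absurd (Fin.ext h) hi
      · exact h
    omega

end Pool.Agent.W275.ND
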