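import Pool.Agent.W275.ND.Asm3
import Pool.Agent.W275.ND.Ent
import Pool.Agent.W902.ND.Contr
import Pool.Agent.W327.ND.Nof
import Pool.Agent.W131.ND.Lmk
import Pool.Agent.W930.ND.Spl

set_option autoImplicit false

/-! Project ND: everything together. -/

namespace Pool.Agent.W275.ND

open Pool.Agent.H936R2 Pool.Agent.H927R2.RD H294UB Pool.Agent.W275.UB

/-- 100% of the systems over an order have no preperiodic points of small degree -/
theorem final (N d : ℕ) (hN : 1 ≤ N) (hd : 2 ≤ d) (O J : Type) [CommRing O]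
    [IsDomain O] [Fintype J] (ω : Module.Basis J ℤ O) :
    D0 {w : Idx (N + 1) d × J → ℤ | ¬ FreeO (d * Fintype.card J) (Ph ω w)} :=
  final_free W930.ND.main
    (W131.ND.Lmk.main W688.UB.Theta2.main W125.UB.FinT.tensor_main W21.UB.main W305.UB.Norm.main)
    ent W902.ND.main W327.ND.main N d hN hd O J ω

end Pool.Agent.W275.ND
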