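import Pool.Agent.W275.ND.He4
import Pool.Agent.W275.UB.All
import Pool.Agent.W216.ND.Core
import Pool.Agent.W240.ND.Hper
import Pool.Agent.W469.ND.Hno
import Pool.Agent.W131.ND.Lmk
import Pool.Agent.W930.ND.Spl

set_option autoImplicit false

/-! Project HE: everything together. -/

namespace Pool.Agent.W275.ND

open MvPolynomial Pool.Agent.H936R2 Pool.Agent.H927R2.RD H294UB Pool.Agent.W275.UB

theorem lmk : S_lmk := W131.ND.Lmk.main W688.UB.Theta2.main W125.UB.FinT.tensor_main
  W21.UB.main W305.UB.Norm.main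

theorem hcore : S_hcore := W216.ND.main W240.ND.Hper.main

theorem lmg2 : S_lmg2 := W505.UB.Lmg2.main W688.UB.Theta2.main W125.UB.FinT.tensor_main
  W21.UB.main

/-- uniform boundedness for 100% of the Hénon maps of every degree -/
theorem henon_final (D B d : ℕ) (hd : 2 ≤ d) :
    ∃ C : ℕ, (B < d → C = 0) ∧ ∀ (k : Type) [Field k] [NumberField k], Module.finrank ℚ k ≤ D →
      ∀ (J : Type) [Fintype J] (ω : Module.Basis J ℤ (NumberField.RingOfIntegers k)) (T : Type)
      [Fintype T],
      D0 {w : Hx d T × J → ℤ | ¬ (((cv ω fun q => (w q : NumberField.RingOfIntegers k))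
          (Sum.inl (Fin.last d)) ≠ 0 ∧
        (cv ω fun q => (w q : NumberField.RingOfIntegers k)) (Sum.inr none) ≠ 0 ∧
        ∀ s, (cv ω fun q => (w q : NumberField.RingOfIntegers k)) (Sum.inr (some s)) ≠ 0) ∧
        BddH B C (cv ω fun q => (w q : NumberField.RingOfIntegers k)))} :=
  hen_final W500.UB.Tab.main W305.UB.Norm.main (W505.UB.GenT.main gen) W883.UB.Dens.main
    W925.UB.Densp.main W688.UB.Lmn2.main lmg2 W333.ND.HAlg.main hcore W930.ND.main lmk
    W469.ND.Hno.main D B d hd

end Pool.Agent.W275.ND
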