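import Pool.Agent.W275.ND.Asm2
import Pool.Agent.W275.UB.All

set_option autoImplicit false

/-! Assembly of project ND: with the proved parts of project UB. -/

namespace Pool.Agent.W275.ND

open MvPolynomial Pool.Agent.H936R2 Pool.Agent.H927R2.RD H294UB Pool.Agent.W275.UB

/-- the system over `O` is free of low degree preperiodic points -/
def FreeO {O : Type} [CommRing O] {N : ℕ} (D : ℕ)
    (F : Fin (N + 1) → MvPolynomial (Fin (N + 1)) O) : Prop :=
  (∀ (K : Type) [Field K] [CharZero K] (σ : O →+* K) (x : Fin (N + 1) → K),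
    pt (fun i => map σ (F i)) x = 0 → x = 0) ∧
  ∀ (K : Type) [Field K] [NumberField K] (σ : O →+* K), Module.finrank ℚ K < D →
    ∀ x : Fin (N + 1) → K, x ≠ 0 → ¬ ∃ m n : ℕ, m < n ∧ ∃ c : K, c ≠ 0 ∧
      (pt fun i => map σ (F i))^[n] x = c • (pt fun i => map σ (F i))^[m] x

theorem final_free (hspl : S_spl) (hlmk : S_lmk) (hent : S_ent) (hcon : S_con) (hnof : S_nof)
    (N d : ℕ) (hN : 1 ≤ N) (hd : 2 ≤ d) (O J : Type) [CommRing O] [IsDomain O] [Fintype J]
    (ω : Module.Basis J ℤ O) :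
    D0 {w : Idx (N + 1) d × J → ℤ | ¬ FreeO (d * Fintype.card J) (Ph ω w)} := by
  have h := no_low W405.UB.main W32.UB.main W500.UB.Tab.main W305.UB.Norm.main
    (W505.UB.GenT.main gen) W125.UB.FinT.fin_main W883.UB.Dens.main W347.UB.C1.main
    (H294UB.taskCnt H294UB.taskFib) type2 hspl hlmk hent hcon hnof hN hd O J ω
  intro ε hε
  refine (h ε hε).mono ?_
  intro w hw hcon
  apply hw
  have hsy : ∀ (K : Type) [Field K] (σ : O →+* K),
      (fun i => map σ (Ph ω w i)) = sw ω σ w := by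
    intro K _ σ
    show (fun i => map σ (sy (cv ω fun q => (w q : O)) i)) = sw ω σ w
    rw [map_sy, sw]
    congr 1
    funext i
    simp [cv]
  refine ⟨?_, ?_⟩
  · intro K _ _ σ x hx
    rw [hsy K σ] at hx
    exact hcon.1 K σ x hx
  · intro K _ _ σ hK x hx
    have := hcon.2 K σ hK x hx
    rw [hsy K σ]
    exact this

end Pool.Agent.W275.ND
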