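import Pool.Agent.W275.ND.Asm

set_option autoImplicit false

/-! Assembly of project HE: the equations. -/

namespace Pool.Agent.W275.ND

open MvPolynomial Pool.Agent.H936R2 Pool.Agent.H927R2.RD H294UB Pool.Agent.W275.UB

section defs

variable {d : ℕ} {T J : Type} [Fintype T] [Fintype J] {e : ℕ}

/-- indices modulo `e` -/
def ix (he : 0 < e) (t : ℕ) : Fin e := ⟨t % e, Nat.mod_lt t he⟩

/-- the ring of the equations -/
abbrev QQ (d : ℕ) (T J : Type) (e : ℕ) : Type :=
  MvPolynomial (Fin e ⊕ J) (MvPolynomial (Hx d T × J) ℤ)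

/-- the universal coefficients -/
noncomputable def vv (d : ℕ) (T J : Type) [Fintype J] (e : ℕ) : Hx d T → QQ d T J e :=
  cv (R := QQ d T J e) (fun j => X (Sum.inr j)) (fun q => C (X q))

/-- the Hénon equation at time `t` -/
noncomputable def eqH (d : ℕ) (T J : Type) [Fintype T] [Fintype J] {e : ℕ} (he : 0 < e) (t : ℕ) :
    QQ d T J e :=
  (∏ s : T, vv d T J e (Sum.inr (some s))) * X (Sum.inl (ix he (t + 2))) -
    ((∑ i : Fin (d + 1), vv d T J e (Sum.inl i) * X (Sum.inl (ix he (t + 1))) ^ (i : ℕ)) -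
      vv d T J e (Sum.inr none) * X (Sum.inl (ix he t)))

/-- the equations -/
def GH (d : ℕ) (T : Type) {J : Type} [Fintype T] [Fintype J] {e : ℕ} (he : 0 < e) {O : Type}
    [CommRing O] (ω : Module.Basis J ℤ O) : Set (QQ d T J e) :=
  {g | (∃ t : ℕ, g = eqH d T J he t) ∨
    (∃ j l, g = X (Sum.inr j) * X (Sum.inr l) -
      ∑ t, ((ω.repr (ω j * ω l) t : ℤ) : QQ d T J e) * X (Sum.inr t)) ∨
    g = ∑ t, ((ω.repr 1 t : ℤ) : QQ d T J e) * X (Sum.inr t) - 1}

lemma eval_vv {R : Type} [CommRing R] (φ : MvPolynomial (Hx d T × J) ℤ →+* R) (x : Fin e → R)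
    (z : J → R) (i : Hx d T) :
    eval₂ φ (Sum.elim x z) (vv d T J e i) = cv z (fun q => φ (X q)) i := by
  simp only [vv, cv]
  rw [eval₂_sum]
  apply Finset.sum_congr rfl
  intro j _
  rw [eval₂_mul, eval₂_X, eval₂_C, Sum.elim_inr]

lemma eval_eqH (he : 0 < e) {R : Type} [CommRing R] (φ : MvPolynomial (Hx d T × J) ℤ →+* R)
    (x : Fin e → R) (z : J → R) (t : ℕ) :
    eval₂ φ (Sum.elim x z) (eqH d T J he t) =
      (∏ s : T, cv z (fun q => φ (X q)) (Sum.inr (some s))) * x (ix he (t + 2)) -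
      ((∑ i : Fin (d + 1), cv z (fun q => φ (X q)) (Sum.inl i) * x (ix he (t + 1)) ^ (i : ℕ)) -
        cv z (fun q => φ (X q)) (Sum.inr none) * x (ix he t)) := by
  simp only [eqH, eval₂_sub, eval₂_mul, eval₂_X, Sum.elim_inl, eval₂_prod, eval₂_sum, eval₂_pow,
    eval_vv]

lemma gh_iff (htab : S_tab) (he : 0 < e) {O : Type} [CommRing O] (ω : Module.Basis J ℤ O)
    {R : Type} [Field R] (φ : MvPolynomial (Hx d T × J) ℤ →+* R) (x : Fin e → R) (z : J → R) :
    (∀ g ∈ GH d T he ω, eval₂ φ (Sum.elim x z) g = 0) ↔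
      (∃ σ : O →+* R, z = fun j => σ (ω j)) ∧
        HRec (cv z fun q => φ (X q)) (fun t => x (ix he t)) := by
  have hcast : ∀ a : ℤ, eval₂ φ (Sum.elim x z) ((a : ℤ) : QQ d T J e) = (a : R) := by
    intro a
    exact map_intCast (eval₂Hom φ (Sum.elim x z)) a
  have hT : Tab ω z ↔ (∃ σ : O →+* R, z = fun j => σ (ω j)) := by
    rw [htab O J R ω z]
    constructor
    · rintro ⟨σ, h⟩; exact ⟨σ, funext h⟩
    · rintro ⟨σ, h⟩; exact ⟨σ, fun j => congrFun h j⟩
  rw [← hT]
  constructor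
  · intro h
    refine ⟨⟨fun j l => ?_, ?_⟩, fun t => ?_⟩
    · have h1 := h _ (Or.inr (Or.inl ⟨j, l, rfl⟩))
      rw [eval₂_sub, eval₂_mul, eval₂_X, eval₂_X, eval₂_sum, sub_eq_zero] at h1
      simp only [eval₂_mul, hcast, eval₂_X, Sum.elim_inr] at h1
      exact h1
    · have h1 := h _ (Or.inr (Or.inr rfl))
      rw [eval₂_sub, eval₂_sum, eval₂_one, sub_eq_zero] at h1
      simp only [eval₂_mul, hcast, eval₂_X, Sum.elim_inr] at h1
      exact h1
    · have h1 := h _ (Or.inl ⟨t, rfl⟩)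
      rw [eval_eqH, sub_eq_zero] at h1
      exact h1
  · rintro ⟨⟨h1, h2⟩, h3⟩ g hg
    rcases hg with ⟨t, rfl⟩ | ⟨j, l, rfl⟩ | rfl
    · rw [eval_eqH, sub_eq_zero]
      exact h3 t
    · rw [eval₂_sub, eval₂_mul, eval₂_X, eval₂_X, eval₂_sum, sub_eq_zero]
      simp only [eval₂_mul, hcast, eval₂_X, Sum.elim_inr]
      exact h1 j l
    · rw [eval₂_sub, eval₂_sum, eval₂_one, sub_eq_zero]
      simp only [eval₂_mul, hcast, eval₂_X, Sum.elim_inr]
      exact h2

lemma ix_add (he : 0 < e) (t : ℕ) : ix he (t + e) = ix he t := by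
  simp [ix]

/-- a periodic sequence as a function on residues -/
lemma per_ix (he : 0 < e) {K : Type} (y : ℕ → K) (hy : ∀ t, y (t + e) = y t) (t : ℕ) :
    y ((ix he t : Fin e) : ℕ) = y t := by
  have h : ∀ a b : ℕ, y (b + a * e) = y b := by
    intro a
    induction a with
    | zero => intro b; simp
    | succ a ih => intro b; rw [Nat.succ_mul, ← add_assoc, hy, ih]
  have h1 := h (t / e) (t % e)
  rw [Nat.mod_add_div' t e] at h1
  exact h1.symm

end defs

theorem badH (htab : S_tab) (hgen : S_genT) (halg : S_halg) {d D : ℕ} (hd : 2 ≤ d)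
    {O J : Type} [CommRing O] [IsDomain O] [Fintype J] (ω : Module.Basis J ℤ O) (T : Type)
    [Fintype T] {e : ℕ} (he : 0 < e) (h : QQ d T J e)
    (hloc : ∀ (L : Type) [Field L] [Algebra (EE (Hx d T × J)) L]
      [FiniteDimensional (EE (Hx d T × J)) L], Module.finrank (EE (Hx d T × J)) L ≤ D →
      ∀ (σ : O →+* L) (x : Fin e → L),
      HRec (cv (fun j => σ (ω j)) fun q => gn (Hx d T × J) L (X q)) (fun t => x (ix he t)) →
      eval₂ (gn (Hx d T × J) L) (Sum.elim x fun j => σ (ω j)) h = 0) :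
    D0 {w : Hx d T × J → ℤ |
      ∃ (K : Type) (_ : Field K) (_ : NumberField K) (y : Fin e ⊕ J → K),
        Module.finrank ℚ K ≤ D ∧
        (∀ g ∈ GH d T he ω, eval₂ ((Int.castRingHom K).comp (eval w)) y g = 0) ∧
        eval₂ ((Int.castRingHom K).comp (eval w)) y h ≠ 0} := by
  classical
  by_contra hcon
  obtain ⟨L, _, _, y, hfd, hdeg, hy, hne⟩ := hgen (Hx d T × J) (Fin e ⊕ J) D
    (GH d T he ω) h (by
      intro Ω _ _ _ y hy
      have hy' : y = Sum.elim (fun i => y (Sum.inl i)) (fun j => y (Sum.inr j)) := by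
        funext t
        cases t <;> rfl
      rw [hy'] at hy
      obtain ⟨⟨σ, hσ⟩, hrec⟩ := (gh_iff htab he ω _ _ _).1 hy
      rw [hσ] at hrec
      have hint : ∀ x : O, IsIntegral ℤ (σ x) := by
        intro x
        haveI : Module.Finite ℤ O := Module.Finite.of_basis ω
        have h1 : IsIntegral ℤ x := Algebra.IsIntegral.isIntegral x
        have h2 := h1.map (σ.toIntAlgHom)
        exact h2
      have hintE : ∀ x : O, IsAlgebraic (EE (Hx d T × J)) (σ x) := by
        intro x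
        obtain ⟨p, hp, hpx⟩ := hint x
        refine IsIntegral.isAlgebraic
          ⟨p.map (Int.castRingHom (EE (Hx d T × J))), hp.map _, ?_⟩
        rw [Polynomial.eval₂_map]
        have h2 : (algebraMap (EE (Hx d T × J)) Ω).comp
            (Int.castRingHom (EE (Hx d T × J))) = algebraMap ℤ Ω := RingHom.ext_int _ _
        rw [h2]
        exact hpx
      have h3 := halg O J ω d e hd he T Ω σ (fun t => y (Sum.inl (ix he t))) hrec
        (fun t => by simp only [ix_add])
      intro t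
      cases t with
      | inl i =>
        have h4 := h3 (i : ℕ)
        have h5 : ix he (i : ℕ) = i := Fin.ext (Nat.mod_eq_of_lt i.2)
        rw [h5] at h4
        exact h4
      | inr j =>
        have h1 := congrFun hσ j
        have h2 : y (Sum.inr j) = σ (ω j) := h1
        rw [h2]
        exact hintE _) hcon
  haveI := hfd
  have hy' : y = Sum.elim (fun i => y (Sum.inl i)) (fun j => y (Sum.inr j)) := by
    funext t
    cases t <;> rfl
  rw [hy'] at hy hne
  obtain ⟨⟨σ, hσ⟩, hrec⟩ := (gh_iff htab he ω _ _ _).1 hy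
  rw [hσ] at hrec hne
  exact hne (hloc L hdeg σ _ hrec)

end Pool.Agent.W275.ND
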