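import Pool.Agent.W275.ND.He1
import Pool.Agent.W275.UB.Fin8

set_option autoImplicit false

/-! Assembly of project HE: periods, and points of small degree. -/

namespace Pool.Agent.W275.ND

open MvPolynomial Pool.Agent.H936R2 Pool.Agent.H927R2.RD H294UB Pool.Agent.W275.UB

/-- the coefficients over `K` -/
noncomputable def hv {O J K : Type} [CommRing O] [Fintype J] [Field K] {d : ℕ} {T : Type}
    (ω : Module.Basis J ℤ O) (σ : O →+* K) (w : Hx d T × J → ℤ) : Hx d T → K :=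
  cv (fun j => σ (ω j)) fun q => (w q : K)

/-- periodic sequences -/
def Prd {K : Type} (y : ℕ → K) : Prop := ∃ n, 0 < n ∧ ∀ t, y (t + n) = y t

lemma cH_ne {d : ℕ} {T : Type} [Fintype T] : cH d T ≠ 0 := by
  intro h
  have h1 : eval (fun _ => (1 : ℤ)) (cH d T) = 1 := by simp [cH]
  rw [h, map_zero] at h1
  exact zero_ne_one h1

lemma hv_eval {O J K : Type} [CommRing O] [Fintype J] [Field K] {d : ℕ} {T : Type}
    (ω : Module.Basis J ℤ O) (σ : O →+* K) (w : Hx d T × J → ℤ) :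
    cv (fun j => σ (ω j)) (fun q => ((Int.castRingHom K).comp (eval w))
      (X q : MvPolynomial (Hx d T × J) ℤ)) = hv ω σ w := by
  have hev : ∀ q, ((Int.castRingHom K).comp (eval w)) (X q : MvPolynomial (Hx d T × J) ℤ) =
      (w q : K) := by
    intro q
    simp
  simp only [hev]
  rfl

/-- bounded periods for 100% of the Hénon maps -/
theorem hen_type (htab : S_tab) (hnorm : S_norm) (hgen : S_genT) (hdensp : S_densp)
    (hlmn : S_lmn2) (hlmg : S_lmg2) (halg : S_halg) (hcore : S_hcore) (d D : ℕ) (hd : 2 ≤ d) :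
    ∃ e : ℕ, 0 < e ∧ ∀ (O J : Type) [CommRing O] [IsDomain O] [Fintype J]
      (ω : Module.Basis J ℤ O) (T : Type) [Fintype T],
      D0 {w : Hx d T × J → ℤ | ¬ ∀ (K : Type) [Field K] [NumberField K] (σ : O →+* K),
        Module.finrank ℚ K ≤ D → ∀ y : ℕ → K, HRec (hv ω σ w) y → Prd y →
          ∀ t, y (t + e) = y t} := by
  classical
  obtain ⟨e0, he0, hcore0⟩ := hcore D d 2 3 hd Nat.prime_two Nat.prime_three (by norm_num)
  refine ⟨e0, he0, ?_⟩
  intro O J _ _ _ ω T _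
  have hone : ∃ v : Hx d T → ℤ, eval v (cH d T) = 1 := ⟨fun _ => 1, by simp [cH]⟩
  obtain ⟨V₂, hV₂⟩ := hlmg D 2 (Hx d T) (cH d T) 1 Nat.prime_two hone one_ne_zero
  obtain ⟨V₃, hV₃⟩ := hlmg D 3 (Hx d T) (cH d T) 1 Nat.prime_three hone one_ne_zero
  have hloc : ∀ (L : Type) [Field L] [Algebra (EE (Hx d T × J)) L]
      [FiniteDimensional (EE (Hx d T × J)) L], Module.finrank (EE (Hx d T × J)) L ≤ D →
      ∀ (σ : O →+* L) (y : ℕ → L),
      HRec (cv (fun j => σ (ω j)) fun q => gn (Hx d T × J) L (X q)) y → Prd y →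
      ∀ t, y (t + e0) = y t := by
    intro L _ _ _ hL σ y hy hper
    exact hcore0 T L _ (hV₂ O J ω L hL σ).weaken (hV₃ O J ω L hL σ).weaken y hy hper
  intro ε hε
  obtain ⟨n₁, hn₁, hdiv₁⟩ := hnorm O J (Hx d T) ω (cH d T) cH_ne
  obtain ⟨P₀, hP₀⟩ := hdensp (Hx d T × J) n₁ hn₁ (ε / 4) (by positivity)
  obtain ⟨p, hp, hpP⟩ := exists_prime_ge P₀
  obtain ⟨q, hq, hqP⟩ := exists_prime_ge (max P₀ (p + 1))
  have hpq : p ≠ q := by
    have := (le_max_right P₀ (p + 1)).trans hqP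
    omega
  obtain ⟨e1, he1, hcore1⟩ := hcore D d p q hd hp hq hpq
  set Z : Fin e1 → Set (Hx d T × J → ℤ) := fun t =>
    {w : Hx d T × J → ℤ |
      ∃ (K : Type) (_ : Field K) (_ : NumberField K) (y : Fin e1 ⊕ J → K),
        Module.finrank ℚ K ≤ D ∧
        (∀ g ∈ GH d T he1 ω, eval₂ ((Int.castRingHom K).comp (eval w)) y g = 0) ∧
        eval₂ ((Int.castRingHom K).comp (eval w)) y
          (X (Sum.inl (ix he1 ((t : ℕ) + e0))) - X (Sum.inl (ix he1 (t : ℕ)))) ≠ 0}
    with hZ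
  have hZ0 : D0 (⋃ t ∈ (Finset.univ : Finset (Fin e1)), Z t) :=
    D0.biUnion _ _ fun t _ => badH htab hgen halg hd ω T he1 _ (by
      intro L _ _ _ hL σ x hx
      rw [eval₂_sub, eval₂_X, eval₂_X, Sum.elim_inl, Sum.elim_inl, sub_eq_zero]
      exact hloc L hL σ _ hx ⟨e1, he1, fun t => by simp only [ix_add]⟩ (t : ℕ))
  have htot := ((hP₀ p hp hpP).union (hP₀ q hq ((le_max_left _ _).trans hqP))).add_D0
    hZ0 (δ := ε / 4) (by positivity)
  have hsum : ε / 4 + ε / 4 + ε / 4 ≤ ε := by linarith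
  have hle : ∀ (S : Set (Hx d T × J → ℤ)), UD (ε / 4 + ε / 4 + ε / 4) S → UD ε S := by
    rintro S ⟨H₀, h⟩
    refine ⟨H₀, fun H hH => (h H hH).trans ?_⟩
    gcongr
  apply (hle _ htot).mono
  intro w hw
  by_contra hnot
  simp only [Set.mem_union, not_or] at hnot
  obtain ⟨⟨hw1, hw2⟩, hw4⟩ := hnot
  apply hw
  intro K _ _ σ hK y hy hper
  have hl : ∀ l : ℕ, l.Prime → ¬ (l : ℤ) ∣ eval w n₁ → LM l D 0 (cH d T) 1 K (hv ω σ w) := by
    intro l hl hwl
    refine LM.weaken (V := D * 0) (hlmn D l 0 O J (Hx d T) ω (cH d T) 1 n₁ 1 hdiv₁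
      (fun R _ σ w => by rw [map_one, map_one]) K σ hK hl w hwl ?_)
    rw [map_one, zero_add, pow_one]
    intro h
    have h1 := Int.isUnit_iff.1 (isUnit_of_dvd_one h)
    have h2 := hl.two_le
    omega
  have hy1 := hcore1 T K _ (hl p hp hw1) (hl q hq hw2) y hy hper
  by_contra hcon
  have hex : ∃ t : Fin e1, y ((t : ℕ) + e0) ≠ y (t : ℕ) := by
    by_contra hall
    push Not at hall
    apply hcon
    intro t
    have h1 := hall (ix he1 t)
    have h2 : y (((ix he1 t : Fin e1) : ℕ) + e0) = y (t + e0) := by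
      have h3 := per_ix he1 (fun s => y (s + e0)) (fun s => by
        show y (s + e1 + e0) = y (s + e0)
        rw [add_right_comm]
        exact hy1 _) t
      exact h3
    rw [h2, per_ix he1 y hy1] at h1
    exact h1
  obtain ⟨t, ht⟩ := hex
  apply hw4
  rw [Set.mem_iUnion₂]
  refine ⟨t, Finset.mem_univ _, K, inferInstance, inferInstance,
    Sum.elim (fun i : Fin e1 => y (i : ℕ)) (fun j => σ (ω j)), hK, ?_, ?_⟩
  · rw [gh_iff htab, hv_eval]
    refine ⟨⟨σ, rfl⟩, ?_⟩
    have : (fun t => y ((ix he1 t : Fin e1) : ℕ)) = y := funext fun t => per_ix he1 y hy1 t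
    rw [this]
    exact hy
  · rw [eval₂_sub, eval₂_X, eval₂_X, Sum.elim_inl, Sum.elim_inl, per_ix he1 y hy1,
      per_ix he1 y hy1]
    exact sub_ne_zero.2 ht

lemma spH_cast {A : Type} [CommRing A] (p d : ℕ) (T : Type) (i : Hx d T) :
    ((spH (p : ℤ) d T i : ℤ) : A) = spH (p : A) d T i := by
  rcases i with i | (_ | s)
  · simp only [spH]
    split
    · simp
    · split <;> simp
  · simp [spH]
  · simp [spH]

/-- no periodic points of degree less than `d` for 100% of the Hénon maps -/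
theorem hen_low (htab : S_tab) (hgen : S_genT) (halg : S_halg) (hspl : S_spl) (hlmk : S_lmk)
    (hno : S_hno) (d : ℕ) (hd : 2 ≤ d)
    (htype : ∀ D : ℕ, ∃ e : ℕ, 0 < e ∧ ∀ (O J : Type) [CommRing O] [IsDomain O] [Fintype J]
      (ω : Module.Basis J ℤ O) (T : Type) [Fintype T],
      D0 {w : Hx d T × J → ℤ | ¬ ∀ (K : Type) [Field K] [NumberField K] (σ : O →+* K),
        Module.finrank ℚ K ≤ D → ∀ y : ℕ → K, HRec (hv ω σ w) y → Prd y →
          ∀ t, y (t + e) = y t})
    (O J : Type) [CommRing O] [IsDomain O] [Fintype J]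
    (ω : Module.Basis J ℤ O) (T : Type) [Fintype T] :
    D0 {w : Hx d T × J → ℤ | ¬ ∀ (K : Type) [Field K] [NumberField K] (σ : O →+* K),
      Module.finrank ℚ K < d * Fintype.card J → ∀ y : ℕ → K, HRec (hv ω σ w) y → ¬ Prd y} := by
  classical
  obtain ⟨e, he, hbe⟩ := htype (d * Fintype.card J - 1)
  have hJ : 0 < d * Fintype.card J := by
    have h1 : Nonempty J := ω.index_nonempty
    have h2 : 0 < Fintype.card J := Fintype.card_pos
    positivity
  obtain ⟨p, hp, ⟨σ₀⟩⟩ := hspl O J ω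
  have hbad := badH (D := d * Fintype.card J - 1) htab hgen halg hd ω T he 1 (by
    intro L _ _ _ hL σ x hx
    exfalso
    obtain ⟨K', _, φ, A, _, _, _, _, _, π, b, h1, h2, h3, h4, h5⟩ :=
      hlmk O J ω p σ₀ (Hx d T) (spH (p : ℤ) d T) 1 2 d L σ (by omega)
    set v : Hx d T → L := cv (fun j => σ (ω j)) fun q => gn (Hx d T × J) L (X q) with hv
    refine hno A K' π (p : A) h1 h2 d hd h3 T (fun i => φ (v i)) b ?_ ?_
      (fun t => φ (x (ix he t))) ?_ ⟨e, he, fun s => by simp only [ix_add]⟩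
    · intro i
      rw [h4 i, pow_one, map_natCast]
    · intro i
      rw [← spH_cast]
      exact h5 i
    · intro t
      have h6 := congrArg φ (hx t)
      simp only [map_mul, map_prod, map_sub, map_sum, map_pow] at h6
      exact h6)
  have htot := (hbe O J ω T).union hbad
  intro ε hε
  apply (htot ε hε).mono
  intro w hw
  by_contra hnot
  simp only [Set.mem_union, not_or] at hnot
  obtain ⟨hw2, hw3⟩ := hnot
  have hw2' := not_not.1 hw2
  apply hw
  rintro K _ _ σ hK y hy hper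
  have hye := hw2' K σ (by omega) y hy hper
  apply hw3
  refine ⟨K, inferInstance, inferInstance,
    Sum.elim (fun i : Fin e => y (i : ℕ)) (fun j => σ (ω j)), by omega, ?_, ?_⟩
  · rw [gh_iff htab, hv_eval]
    refine ⟨⟨σ, rfl⟩, ?_⟩
    have : (fun t => y ((ix he t : Fin e) : ℕ)) = y := funext fun t => per_ix he y hye t
    rw [this]
    exact hy
  · rw [eval₂_one]
    exact one_ne_zero

end Pool.Agent.W275.ND
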