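import Pool.Agent.W275.ND.He2
import Pool.Agent.W333.ND.HAlg

set_option autoImplicit false

/-! Assembly of project HE: points of the plane. -/

namespace Pool.Agent.W275.ND

open MvPolynomial Pool.Agent.H936R2 Pool.Agent.H927R2.RD H294UB Pool.Agent.W275.UB
open Pool.Agent.H504D (hen card_periodic_le)
open Pool.Agent.W333.ND.HAlg (HF HF_eval HF_natDegree)

section plane

variable {K : Type} [Field K] {d : ℕ} {T : Type} [Fintype T]

/-- the Hénon map with coefficients `v` -/
noncomputable def hmp (v : Hx d T → K) (P : K × K) : K × K :=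
  (P.2, ((∑ i : Fin (d + 1), v (Sum.inl i) * P.2 ^ (i : ℕ)) - v (Sum.inr none) * P.1) /
    ∏ s : T, v (Sum.inr (some s)))

lemma hmp_eq_hen (v : Hx d T → K) :
    hmp v = hen (HF v) (v (Sum.inr none) / ∏ s : T, v (Sum.inr (some s))) := by
  funext P
  unfold hmp hen
  rw [HF_eval]
  congr 1
  rw [sub_div, div_mul_eq_mul_div]

lemma hmp_map {L : Type} [Field L] (φ : K →+* L) (v : Hx d T → K) (P : K × K) :
    hmp (fun i => φ (v i)) (φ P.1, φ P.2) = (φ (hmp v P).1, φ (hmp v P).2) := by
  unfold hmp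
  simp only [map_div₀, map_sub, map_mul, map_sum, map_pow, map_prod]

lemma hmp_iter_map {L : Type} [Field L] (φ : K →+* L) (v : Hx d T → K) (P : K × K) (n : ℕ) :
    (hmp (fun i => φ (v i)))^[n] (φ P.1, φ P.2) =
      (φ ((hmp v)^[n] P).1, φ ((hmp v)^[n] P).2) := by
  induction n with
  | zero => rfl
  | succ n ih => rw [Function.iterate_succ_apply', ih, hmp_map, Function.iterate_succ_apply']

/-- the sequence of the first coordinates -/
lemma seq_snd (v : Hx d T → K) (P : K × K) (t : ℕ) :
    ((hmp v)^[t] P).2 = ((hmp v)^[t + 1] P).1 := by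
  rw [Function.iterate_succ_apply']
  rfl

lemma seq_rec (v : Hx d T → K) (hm : ∏ s : T, v (Sum.inr (some s)) ≠ 0) (P : K × K) :
    HRec v (fun t => ((hmp v)^[t] P).1) := by
  intro t
  show _ * ((hmp v)^[t + 2] P).1 = _
  rw [← seq_snd, Function.iterate_succ_apply']
  show _ * ((_ - _ * ((hmp v)^[t] P).1) / _) = _
  rw [mul_div_cancel₀ _ hm]
  simp only [seq_snd]

lemma seq_per (v : Hx d T → K) (P : K × K) (n : ℕ) (h : (hmp v)^[n] P = P) (t : ℕ) :
    ((hmp v)^[t + n] P).1 = ((hmp v)^[t] P).1 := by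
  rw [Function.iterate_add_apply, h]

lemma per_seq (v : Hx d T → K) (P : K × K) (n : ℕ)
    (h : ∀ t, ((hmp v)^[t + n] P).1 = ((hmp v)^[t] P).1) : (hmp v)^[n] P = P := by
  apply Prod.ext
  · have := h 0
    rwa [zero_add] at this
  · rw [seq_snd, add_comm n 1, h 1, ← seq_snd]
    rfl

lemma card_per (v : Hx d T → K) (hd : 2 ≤ d) (hl : v (Sum.inl (Fin.last d)) ≠ 0)
    (hm : ∏ s : T, v (Sum.inr (some s)) ≠ 0) (n : ℕ) (hn : 0 < n) (S : Finset (K × K))
    (hS : ∀ P ∈ S, (hmp v)^[n] P = P) : S.card ≤ d ^ n := by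
  have h1 : (HF v).natDegree = d := HF_natDegree v (div_ne_zero hl hm)
  have h2 := card_periodic_le (HF v) (v (Sum.inr none) / ∏ s : T, v (Sum.inr (some s))) S n hn
    (by omega) (by rw [← hmp_eq_hen]; exact hS)
  rwa [h1] at h2

end plane

/-- the Hénon map over the algebraic closure of `k` with coefficients `q` in the ring of integers -/
noncomputable def hbar {k : Type} [Field k] [NumberField k] {d : ℕ} {T : Type} [Fintype T]
    (q : Hx d T → NumberField.RingOfIntegers k) :
    AlgebraicClosure k × AlgebraicClosure k → AlgebraicClosure k × AlgebraicClosure k :=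
  hmp fun i => algebraMap k (AlgebraicClosure k) (q i : k)

/-- at most `C` periodic points of degree at most `B` over `k` -/
def BddH {k : Type} [Field k] [NumberField k] {d : ℕ} {T : Type} [Fintype T] (B C : ℕ)
    (q : Hx d T → NumberField.RingOfIntegers k) : Prop :=
  ∀ S : Finset (AlgebraicClosure k × AlgebraicClosure k),
    (∀ P ∈ S, (∃ n : ℕ, 1 ≤ n ∧ (hbar q)^[n] P = P) ∧
      Module.finrank k (IntermediateField.adjoin k {P.1, P.2}) ≤ B) → S.card ≤ C

/-- descent of a periodic point of small degree to a number field -/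
lemma descend {k : Type} [Field k] [NumberField k] {d : ℕ} {T : Type} [Fintype T]
    (q : Hx d T → NumberField.RingOfIntegers k)
    (hm : ∏ s : T, (q (Sum.inr (some s)) : k) ≠ 0)
    (P : AlgebraicClosure k × AlgebraicClosure k) (n : ℕ) (hn : 1 ≤ n) (hP : (hbar q)^[n] P = P)
    (B : ℕ) (hB : Module.finrank k (IntermediateField.adjoin k {P.1, P.2}) ≤ B) :
    ∃ (K : Type) (_ : Field K) (_ : NumberField K) (σ : NumberField.RingOfIntegers k →+* K)
      (y : ℕ → K), Module.finrank ℚ K ≤ B * Module.finrank ℚ k ∧ HRec (fun i => σ (q i)) y ∧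
      Prd y ∧ ∀ e, (∀ t, y (t + e) = y t) → (hbar q)^[e] P = P := by
  let L := IntermediateField.adjoin k ({P.1, P.2} : Set (AlgebraicClosure k))
  have hfd : FiniteDimensional k L := by
    apply IntermediateField.finiteDimensional_adjoin
    intro x _
    exact Algebra.IsIntegral.isIntegral x
  haveI : FiniteDimensional ℚ L := FiniteDimensional.trans ℚ k L
  haveI : NumberField L := ⟨⟩
  have hL : Module.finrank ℚ L ≤ B * Module.finrank ℚ k := by
    rw [← Module.finrank_mul_finrank ℚ k L, mul_comm]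
    exact Nat.mul_le_mul_right _ hB
  let Q : L × L := (⟨P.1, IntermediateField.subset_adjoin k _ (by simp)⟩,
    ⟨P.2, IntermediateField.subset_adjoin k _ (by simp)⟩)
  let v : Hx d T → L := fun i => algebraMap k L (q i : k)
  have hφ : ∀ m, (hbar q)^[m] P = (algebraMap L (AlgebraicClosure k) ((hmp v)^[m] Q).1,
      algebraMap L (AlgebraicClosure k) ((hmp v)^[m] Q).2) := by
    intro m
    rw [← hmp_iter_map]
    rfl
  have hinj : Function.Injective (algebraMap L (AlgebraicClosure k)) :=
    (algebraMap L (AlgebraicClosure k)).injective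
  have hfix : ∀ m, (hbar q)^[m] P = P ↔ (hmp v)^[m] Q = Q := by
    intro m
    rw [hφ m]
    constructor
    · intro h
      apply Prod.ext
      · exact hinj (congrArg Prod.fst h)
      · exact hinj (congrArg Prod.snd h)
    · intro h
      rw [h]
      rfl
  have hm' : ∏ s : T, v (Sum.inr (some s)) ≠ 0 := by
    show ∏ s : T, algebraMap k L (q (Sum.inr (some s)) : k) ≠ 0
    rw [← map_prod]
    exact (map_ne_zero _).2 hm
  refine ⟨L, inferInstance, inferInstance,
    (algebraMap k L).comp (algebraMap (NumberField.RingOfIntegers k) k),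
    fun t => ((hmp v)^[t] Q).1, hL, seq_rec v hm' Q,
    ⟨n, hn, fun t => seq_per v Q n ((hfix n).1 hP) t⟩, fun e he => ?_⟩
  exact (hfix e).2 (per_seq v Q e he)

/-- the user level statement -/
theorem hen_final (htab : S_tab) (hnorm : S_norm) (hgen : S_genT) (hdens : S_dens)
    (hdensp : S_densp) (hlmn : S_lmn2) (hlmg : S_lmg2) (halg : S_halg) (hcore : S_hcore)
    (hspl : S_spl) (hlmk : S_lmk) (hno : S_hno) (D B d : ℕ) (hd : 2 ≤ d) :
    ∃ C : ℕ, (B < d → C = 0) ∧ ∀ (k : Type) [Field k] [NumberField k], Module.finrank ℚ k ≤ D →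
      ∀ (J : Type) [Fintype J] (ω : Module.Basis J ℤ (NumberField.RingOfIntegers k)) (T : Type)
      [Fintype T],
      D0 {w : Hx d T × J → ℤ | ¬ (((cv ω fun q => (w q : NumberField.RingOfIntegers k))
          (Sum.inl (Fin.last d)) ≠ 0 ∧
        (cv ω fun q => (w q : NumberField.RingOfIntegers k)) (Sum.inr none) ≠ 0 ∧
        ∀ s, (cv ω fun q => (w q : NumberField.RingOfIntegers k)) (Sum.inr (some s)) ≠ 0) ∧
        BddH B C (cv ω fun q => (w q : NumberField.RingOfIntegers k)))} := by
  classical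
  obtain ⟨e, he, hbe⟩ := hen_type htab hnorm hgen hdensp hlmn hlmg halg hcore d (B * D) hd
  refine ⟨if B < d then 0 else d ^ e, fun h => if_pos h, ?_⟩
  intro k _ _ hk J _ ω T _
  obtain ⟨n₁, hn₁, hdiv₁⟩ := hnorm (NumberField.RingOfIntegers k) J (Hx d T) ω (cH d T) cH_ne
  have hlow := hen_low htab hgen halg hspl hlmk hno d hd
    (fun D => hen_type htab hnorm hgen hdensp hlmn hlmg halg hcore d D hd)
    (NumberField.RingOfIntegers k) J ω T
  have htot := ((D0_zero hdens n₁ hn₁).union (hbe (NumberField.RingOfIntegers k) J ω T)).union hlow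
  intro ε hε
  apply (htot ε hε).mono
  intro w hw
  by_contra hnot
  simp only [Set.mem_union, not_or] at hnot
  obtain ⟨⟨hw1, hw2⟩, hw3⟩ := hnot
  have hw1' : eval w n₁ ≠ 0 := hw1
  have hw2' := not_not.1 hw2
  have hw3' := not_not.1 hw3
  set q : Hx d T → NumberField.RingOfIntegers k :=
    cv ω fun q => (w q : NumberField.RingOfIntegers k) with hq
  have hσ : ∀ (K : Type) [Field K] (σ : NumberField.RingOfIntegers k →+* K),
      (fun i => σ (q i)) = hv ω σ w := by
    intro K _ σ
    funext i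
    simp [hq, hv, cv]
  have hne : ∀ i, (i = Sum.inl (Fin.last d) ∨ ∃ o, i = Sum.inr o) → q i ≠ 0 := by
    intro i hi h0
    have h1 := hdiv₁ (NumberField.RingOfIntegers k) (RingHom.id _)
      (fun q => (w q : NumberField.RingOfIntegers k))
    rw [aeval_cast] at h1
    have h2 : aeval (cv (fun j => (RingHom.id (NumberField.RingOfIntegers k)) (ω j))
        (fun q => (w q : NumberField.RingOfIntegers k))) (cH d T) =
        q (Sum.inl (Fin.last d)) * q (Sum.inr none) * ∏ s : T, q (Sum.inr (some s)) := by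
      rw [cH, map_mul, map_mul, map_prod, aeval_X, aeval_X]
      simp only [aeval_X]
      rfl
    rw [h2] at h1
    have h3 : q (Sum.inl (Fin.last d)) * q (Sum.inr none) * ∏ s : T, q (Sum.inr (some s)) = 0 := by
      rcases hi with rfl | ⟨_ | s, rfl⟩
      · rw [h0, zero_mul, zero_mul]
      · rw [h0, mul_zero, zero_mul]
      · rw [Finset.prod_eq_zero (Finset.mem_univ s) h0, mul_zero]
    rw [h3, zero_dvd_iff] at h1
    exact hw1' (by exact_mod_cast h1)
  apply hw
  refine ⟨⟨hne _ (Or.inl rfl), hne _ (Or.inr ⟨_, rfl⟩), fun s => hne _ (Or.inr ⟨_, rfl⟩)⟩, ?_⟩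
  intro S hS
  have hm : ∏ s : T, (q (Sum.inr (some s)) : k) ≠ 0 := by
    rw [Finset.prod_ne_zero_iff]
    intro s _
    have := hne (Sum.inr (some s)) (Or.inr ⟨_, rfl⟩)
    intro h
    apply this
    exact_mod_cast h
  have hJ : Module.finrank ℚ k = Fintype.card J := by
    rw [← NumberField.RingOfIntegers.rank k, Module.finrank_eq_card_basis ω]
  split_ifs with hBd
  · -- no points at all
    rw [Nat.le_zero, Finset.card_eq_zero]
    by_contra hne'
    obtain ⟨P, hP⟩ := Finset.nonempty_iff_ne_empty.2 hne'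
    obtain ⟨⟨n, hn, hper⟩, hfin⟩ := hS P hP
    obtain ⟨K, _, _, σ, y, hK, hrec, hprd, -⟩ := descend q hm P n hn hper B hfin
    rw [hσ K σ] at hrec
    refine hw3' K σ ?_ y hrec hprd
    rw [← hJ]
    refine lt_of_le_of_lt hK (Nat.mul_lt_mul_of_pos_right hBd Module.finrank_pos)
  · apply card_per (fun i => algebraMap k (AlgebraicClosure k) (q i : k)) hd ?_ ?_ e he S
    · intro P hP
      obtain ⟨⟨n, hn, hper⟩, hfin⟩ := hS P hP
      obtain ⟨K, _, _, σ, y, hK, hrec, hprd, hfix⟩ := descend q hm P n hn hper B hfin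
      rw [hσ K σ] at hrec
      exact hfix e (hw2' K σ (hK.trans (Nat.mul_le_mul_left _ hk)) y hrec hprd)
    · rw [Ne, map_eq_zero]
      have := hne (Sum.inl (Fin.last d)) (Or.inl rfl)
      intro h
      apply this
      exact_mod_cast h
    · rw [← map_prod]
      exact (map_ne_zero _).2 hm

end Pool.Agent.W275.ND
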