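import Pool.Agent.W275.ND.He3

set_option autoImplicit false

/-! Assembly of project HE: boxes. -/

namespace Pool.Agent.W275.ND

open MvPolynomial Pool.Agent.H936R2 Pool.Agent.H927R2.RD H294UB Pool.Agent.W275.UB

section

variable {O J ι : Type} [CommRing O] [Fintype J] [Fintype ι] (ω : Module.Basis J ℤ O)

lemma repr_cvV (w : ι × J → ℤ) (i : ι) (j : J) :
    ω.repr (cv ω (fun q => (w q : O)) i) j = w (i, j) := by
  have h : cv ω (fun q => (w q : O)) i = ∑ j, w (i, j) • ω j := by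
    simp only [cv, zsmul_eq_mul]
    apply Finset.sum_congr rfl
    intro j _
    ring
  rw [h, ω.repr_sum_self]

lemma cv_inj : Function.Injective (fun w : ι × J → ℤ => cv ω (fun q => (w q : O))) := by
  intro w w' h
  funext q
  obtain ⟨i, j⟩ := q
  rw [← repr_cvV ω w i j, ← repr_cvV ω w' i j]
  have h1 := congrFun h i
  simp only at h1
  rw [h1]

lemma boxV_image (H : ℕ) (P : (ι → O) → Prop) :
    {q : ι → O | (∀ i j, |ω.repr (q i) j| ≤ (H : ℤ)) ∧ P q} =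
      (fun w : ι × J → ℤ => cv ω (fun q => (w q : O))) ''
        {w | (∀ q, |w q| ≤ (H : ℤ)) ∧ P (cv ω fun q => (w q : O))} := by
  ext q
  constructor
  · rintro ⟨hq, hP⟩
    have h : cv ω (fun p : ι × J => ((ω.repr (q p.1) p.2 : ℤ) : O)) = q := by
      funext i
      have h2 := ω.sum_repr (q i)
      conv_rhs => rw [← h2]
      simp only [cv, zsmul_eq_mul]
      apply Finset.sum_congr rfl
      intro j _
      ring
    exact ⟨_, ⟨fun p => hq p.1 p.2, by rw [h]; exact hP⟩, h⟩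
  · rintro ⟨w, ⟨hw, hP⟩, rfl⟩
    refine ⟨fun i j => ?_, hP⟩
    simp only
    rw [repr_cvV]
    exact hw _

lemma ncard_boxV (H : ℕ) (P : (ι → O) → Prop) :
    ({q : ι → O | (∀ i j, |ω.repr (q i) j| ≤ (H : ℤ)) ∧ P q}).ncard =
      ({w | (∀ q, |w q| ≤ (H : ℤ)) ∧ P (cv ω fun q => (w q : O))} : Set (ι × J → ℤ)).ncard := by
  rw [boxV_image]
  exact Set.ncard_image_of_injective _ (cv_inj ω)

open Filter Topology in
theorem ratioV (P : (ι → O) → Prop)
    (h : D0 {w : ι × J → ℤ | ¬ P (cv ω fun q => (w q : O))}) :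
    Tendsto (fun H : ℕ => (({q | q ∈ {q : ι → O | ∀ i j, |ω.repr (q i) j| ≤ (H : ℤ)} ∧ P q} :
      Set (ι → O)).ncard : ℝ) /
      (({q : ι → O | ∀ i j, |ω.repr (q i) j| ≤ (H : ℤ)}).ncard : ℝ)) atTop (𝓝 1) := by
  classical
  have h2 : ∀ H : ℕ, ({v | ∀ i, |v i| ≤ (H : ℤ)} : Set (ι × J → ℤ)).ncard =
      (2 * H + 1) ^ Fintype.card (ι × J) := by
    intro H
    have h3 : ({v | ∀ i, |v i| ≤ (H : ℤ)} : Set (ι × J → ℤ)) =
        ((Fintype.piFinset fun _ : ι × J => Finset.Icc (-(H : ℤ)) H : Finset (ι × J → ℤ)) :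
          Set (ι × J → ℤ)) := by
      ext v
      simp only [Set.mem_setOf_eq, Finset.mem_coe, Fintype.mem_piFinset, Finset.mem_Icc, abs_le]
    rw [h3, Set.ncard_coe_finset, Fintype.card_piFinset]
    simp only [Int.card_Icc, Finset.prod_const, Finset.card_univ]
    congr 1
    omega
  have hcount : ∀ H : ℕ, (({q | q ∈ {q : ι → O | ∀ i j, |ω.repr (q i) j| ≤ (H : ℤ)} ∧ P q} :
      Set (ι → O)).ncard : ℝ) = (2 * H + 1 : ℝ) ^ Fintype.card (ι × J) -
      (({v | v ∈ {v : ι × J → ℤ | ¬ P (cv ω fun q => (v q : O))} ∧ ∀ i, |v i| ≤ (H : ℤ)} :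
        Set (ι × J → ℤ)).ncard : ℝ) := by
    intro H
    have h1 : ({q | q ∈ {q : ι → O | ∀ i j, |ω.repr (q i) j| ≤ (H : ℤ)} ∧ P q} :
        Set (ι → O)).ncard = _ := ncard_boxV ω H P
    have h3 : ({v | ∀ i, |v i| ≤ (H : ℤ)} : Set (ι × J → ℤ)) =
        {v | (∀ i, |v i| ≤ (H : ℤ)) ∧ P (cv ω fun q => (v q : O))} ∪
        {v | v ∈ {v : ι × J → ℤ | ¬ P (cv ω fun q => (v q : O))} ∧ ∀ i, |v i| ≤ (H : ℤ)} := by
      ext v
      simp only [Set.mem_union, Set.mem_setOf_eq]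
      tauto
    have hfin1 : ({v | ∀ i, |v i| ≤ (H : ℤ)} : Set (ι × J → ℤ)).Finite := by
      have := box_fin (Set.univ : Set (ι × J → ℤ)) H
      simpa using this
    have h4 : ({v | ∀ i, |v i| ≤ (H : ℤ)} : Set (ι × J → ℤ)).ncard =
        ({v | (∀ i, |v i| ≤ (H : ℤ)) ∧ P (cv ω fun q => (v q : O))} : Set (ι × J → ℤ)).ncard +
        ({v | v ∈ {v : ι × J → ℤ | ¬ P (cv ω fun q => (v q : O))} ∧ ∀ i, |v i| ≤ (H : ℤ)} :
        Set (ι × J → ℤ)).ncard := by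
      rw [h3]
      apply Set.ncard_union_eq
      · rw [Set.disjoint_left]
        rintro v ⟨_, hv⟩ ⟨hv', _⟩
        exact hv' hv
      · exact hfin1.subset fun v hv => hv.1
      · exact hfin1.subset fun v hv => hv.2
    have h5 : (({v | (∀ i, |v i| ≤ (H : ℤ)) ∧ P (cv ω fun q => (v q : O))} :
        Set (ι × J → ℤ)).ncard : ℝ) +
        (({v | v ∈ {v : ι × J → ℤ | ¬ P (cv ω fun q => (v q : O))} ∧ ∀ i, |v i| ≤ (H : ℤ)} :
        Set (ι × J → ℤ)).ncard : ℝ) = (2 * H + 1 : ℝ) ^ Fintype.card (ι × J) := by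
      have h6 := h4.symm.trans (h2 H)
      exact_mod_cast h6
    rw [h1]
    linarith
  have hbox : ∀ H : ℕ, (({q : ι → O | ∀ i j, |ω.repr (q i) j| ≤ (H : ℤ)}).ncard : ℝ) =
      (2 * H + 1 : ℝ) ^ Fintype.card (ι × J) := by
    intro H
    have h1 := ncard_boxV (ι := ι) ω H fun _ => True
    simp only [and_true] at h1
    rw [h1, h2]
    push_cast
    ring
  rw [Metric.tendsto_atTop]
  intro ε hε
  obtain ⟨H₀, hH₀⟩ := h (ε / 2) (by positivity)
  refine ⟨H₀, fun H hH => ?_⟩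
  have h1 := hH₀ H hH
  have hpos : (0 : ℝ) < (2 * H + 1 : ℝ) ^ Fintype.card (ι × J) := by positivity
  rw [hcount, hbox, sub_div, div_self hpos.ne', Real.dist_eq]
  have h2 : (0 : ℝ) ≤ (({v | v ∈ {v : ι × J → ℤ | ¬ P (cv ω fun q => (v q : O))} ∧
      ∀ i, |v i| ≤ (H : ℤ)} : Set (ι × J → ℤ)).ncard : ℝ) /
      (2 * H + 1 : ℝ) ^ Fintype.card (ι × J) := by positivity
  have h3 : (({v | v ∈ {v : ι × J → ℤ | ¬ P (cv ω fun q => (v q : O))} ∧
      ∀ i, |v i| ≤ (H : ℤ)} : Set (ι × J → ℤ)).ncard : ℝ) /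
      (2 * H + 1 : ℝ) ^ Fintype.card (ι × J) ≤ ε / 2 := by
    rw [div_le_iff₀ hpos]
    exact h1
  rw [abs_lt]
  constructor <;> linarith

end

end Pool.Agent.W275.ND
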