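import Pool.Agent.W275.UB.Stm2

/-!
# Points of small degree: statements (MP_13bc7b_nt, MP_0e6b5f_nt)

(ND) 100% of the endomorphisms of `P^N` of degree `d` have no preperiodic point of degree less than
`d`. (HE) 100% of the Hénon maps of degree `d` have a bounded number of periodic points of degree at
most `B`, and none if `B < d`.
-/

set_option autoImplicit false

namespace Pool.Agent.W275.ND

open MvPolynomial Pool.Agent.H936R2 Pool.Agent.H927R2.RD H294UB Pool.Agent.W275.UB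

/-! ### Part G: local models with small ramification -/

/-- an order embeds in the `p`-adic integers for some prime `p` -/
def S_spl : Prop := ∀ (O J : Type) [CommRing O] [IsDomain O] [Fintype J] (_ : Module.Basis J ℤ O),
  ∃ (p : ℕ) (_ : Fact p.Prime), Nonempty (O →+* ℤ_[p])

/-- extensions of degree less than `d` of the field of rational functions over the field of fractions
of `O`, with generic coefficients close to `a_i / p ^ r`, embed in `p`-adic fields of ramification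
less than `d` -/
def S_lmk : Prop := ∀ (O J : Type) [CommRing O] [IsDomain O] [Fintype J] (ω : Module.Basis J ℤ O)
  (p : ℕ) [Fact p.Prime] (_ : O →+* ℤ_[p]) (ι : Type) [Fintype ι] (a : ι → ℤ) (r M d : ℕ)
  (L : Type) [Field L] [Algebra (EE (ι × J)) L] [FiniteDimensional (EE (ι × J)) L] (σ : O →+* L),
  Module.finrank (EE (ι × J)) L < d * Fintype.card J →
  ∃ (K' : Type) (_ : Field K') (φ : L →+* K') (A : Type) (_ : CommRing A) (_ : IsDomain A)
    (_ : IsDiscreteValuationRing A) (_ : Algebra A K') (_ : IsFractionRing A K') (π : A)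
    (b : ι → A), Irreducible π ∧ π ∣ (p : A) ∧ ¬ π ^ d ∣ (p : A) ∧
    (∀ i, algebraMap A K' (b i) =
      (p : K') ^ r * φ (cv (fun j => σ (ω j)) (fun q => gn (ι × J) L (X q)) i)) ∧
    ∀ i, (p : A) ^ M ∣ b i - (a i : A)

/-! ### Part ND: endomorphisms of projective space -/

/-- the triangular system `t x_i^d + x_{i+1}^d` (`i < N`), `t x_N^d` -/
noncomputable def tri {R : Type} [CommRing R] (t : R) (N d : ℕ) (i : Fin (N + 1)) :
    MvPolynomial (Fin (N + 1)) R :=
  C t * X i ^ d + if h : (i : ℕ) + 1 < N + 1 then X ⟨(i : ℕ) + 1, h⟩ ^ d else 0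

/-- the cyclic system `x_{i+1}^d` (`i < N`), `t x_0^d` -/
noncomputable def cyc {R : Type} [CommRing R] (t : R) (N d : ℕ) (i : Fin (N + 1)) :
    MvPolynomial (Fin (N + 1)) R :=
  if h : (i : ℕ) + 1 < N + 1 then X ⟨(i : ℕ) + 1, h⟩ ^ d else C t * X 0 ^ d

/-- a system close to `G`, over the field of fractions -/
noncomputable def near {A : Type} [CommRing A] (K : Type) [Field K] [Algebra A K] {n : ℕ} (t : A)
    (M : ℕ) (G R : Fin n → MvPolynomial (Fin n) A) (i : Fin n) : MvPolynomial (Fin n) K :=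
  map (algebraMap A K) (G i + C (t ^ M) * R i)

/-- the vector is proportional to `(1, w_1, ..., w_N)` with all `w_i` divisible by `π ^ d` -/
def InU {A K : Type} [CommRing A] [Field K] [Algebra A K] {N : ℕ} (π : A) (d : ℕ)
    (z : Fin (N + 1) → K) : Prop :=
  ∃ (c : K) (w : Fin (N + 1) → A), c ≠ 0 ∧ w 0 = 1 ∧ (∀ i, i ≠ 0 → π ^ d ∣ w i) ∧
    z = c • (fun i => algebraMap A K (w i))

/-- all orbits of the systems close to the triangular system enter `U`; no zeros -/
def S_ent : Prop := ∀ (A : Type) [CommRing A] [IsDomain A] [IsDiscreteValuationRing A] (K : Type)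
  [Field K] [Algebra A K] [IsFractionRing A K] (π t : A), Irreducible π → π ∣ t →
  ∀ N d : ℕ, 1 ≤ N → 2 ≤ d → ¬ π ^ d ∣ t → ∀ R : Fin (N + 1) → MvPolynomial (Fin (N + 1)) A,
  (∀ i, (R i).IsHomogeneous d) → ∀ x : Fin (N + 1) → K, x ≠ 0 →
  (∀ k, (pt (near K t (2 * d + 2) (tri t N d) R))^[k] x ≠ 0) ∧
  ∃ k₀, ∀ k, k₀ ≤ k → InU π d ((pt (near K t (2 * d + 2) (tri t N d) R))^[k] x)

/-- periodic points whose orbit stays in `U` are fixed -/
def S_con : Prop := ∀ (A : Type) [CommRing A] [IsDomain A] [IsDiscreteValuationRing A] (K : Type)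
  [Field K] [Algebra A K] [IsFractionRing A K] (π t : A), Irreducible π → π ∣ t →
  ∀ N d : ℕ, 1 ≤ N → 2 ≤ d → ¬ π ^ d ∣ t → ∀ R : Fin (N + 1) → MvPolynomial (Fin (N + 1)) A,
  (∀ i, (R i).IsHomogeneous d) → ∀ z : Fin (N + 1) → K,
  (∀ k, InU π d ((pt (near K t (2 * d + 2) (tri t N d) R))^[k] z)) →
  (∃ l : ℕ, 0 < l ∧ ∃ c : K, c ≠ 0 ∧
    (pt (near K t (2 * d + 2) (tri t N d) R))^[l] z = c • z) →
  ∃ c : K, pt (near K t (2 * d + 2) (tri t N d) R) z = c • z

/-- systems close to the cyclic system have no fixed point -/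
def S_nof : Prop := ∀ (A : Type) [CommRing A] [IsDomain A] [IsDiscreteValuationRing A] (K : Type)
  [Field K] [Algebra A K] [IsFractionRing A K] (π t : A), Irreducible π → π ∣ t →
  ∀ N d : ℕ, 1 ≤ N → 2 ≤ d → ¬ π ^ d ∣ t → ∀ R : Fin (N + 1) → MvPolynomial (Fin (N + 1)) A,
  (∀ i, (R i).IsHomogeneous d) → ∀ (x : Fin (N + 1) → K) (c : K), x ≠ 0 →
  pt (near K t (2 * d + 2) (cyc t N d) R) x ≠ c • x

/-! ### Part HE: Hénon maps -/

/-- the indices of the coefficients `a_0, ..., a_d` (`inl`), `δ` (`inr none`) and the factors of the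
denominator `m` (`inr (some s)`) -/
abbrev Hx (d : ℕ) (T : Type) : Type := Fin (d + 1) ⊕ Option T

/-- the Hénon recursion `m y_(t+2) = a_0 + a_1 y_(t+1) + ... + a_d y_(t+1)^d - δ y_t` -/
def HRec {K : Type} [Field K] {d : ℕ} {T : Type} [Fintype T] (v : Hx d T → K) (y : ℕ → K) : Prop :=
  ∀ t, (∏ s : T, v (Sum.inr (some s))) * y (t + 2) =
    (∑ i : Fin (d + 1), v (Sum.inl i) * y (t + 1) ^ (i : ℕ)) - v (Sum.inr none) * y t

/-- the product `a_d δ m` -/
noncomputable def cH (d : ℕ) (T : Type) [Fintype T] : MvPolynomial (Hx d T) ℤ :=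
  X (Sum.inl (Fin.last d)) * X (Sum.inr none) * ∏ s : T, X (Sum.inr (some s))

/-- the period of a periodic point at a place of good reduction -/
def S_hper : Prop := ∀ p D : ℕ, p.Prime → ∃ W : ℕ, 0 < W ∧
  ∀ (A : Type) [CommRing A] [IsDomain A] [IsDiscreteValuationRing A] (K : Type) [Field K]
  [Algebra A K] [IsFractionRing A K] (π : A), Irreducible π → π ∣ (p : A) →
  Finite (A ⧸ Ideal.span {π}) → Nat.card (A ⧸ Ideal.span {π}) ≤ p ^ D →
  ∀ (F : Polynomial A) (δ : A), 2 ≤ F.natDegree → IsUnit F.leadingCoeff → IsUnit δ →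
  ∀ y : ℕ → K, (∀ t, y (t + 2) =
    (F.map (algebraMap A K)).eval (y (t + 1)) - algebraMap A K δ * y t) →
  (∃ n, 0 < n ∧ ∀ t, y (t + n) = y t) → ∃ r : ℕ, ∀ t, y (t + W * p ^ r) = y t

/-- two places of good reduction bound the periods -/
def S_hcore : Prop := ∀ D d p q : ℕ, 2 ≤ d → p.Prime → q.Prime → p ≠ q → ∃ e : ℕ, 0 < e ∧
  ∀ (T : Type) [Fintype T] (K : Type) [Field K] (v : Hx d T → K),
  LM p D 0 (cH d T) 1 K v → LM q D 0 (cH d T) 1 K v → ∀ y : ℕ → K, HRec v y →
  (∃ n, 0 < n ∧ ∀ t, y (t + n) = y t) → ∀ t, y (t + e) = y t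

/-- numerators of the special Hénon map `a_d = m_s = 1`, `a_0 = 1 / t`, other coefficients `0` -/
def spH {R : Type} [CommRing R] (t : R) (d : ℕ) (T : Type) : Hx d T → R
  | Sum.inl i => if i = Fin.last d then t else if i = 0 then 1 else 0
  | Sum.inr none => 0
  | Sum.inr (some _) => t

/-- Hénon maps close to the special one have no periodic point with small ramification -/
def S_hno : Prop := ∀ (A : Type) [CommRing A] [IsDomain A] [IsDiscreteValuationRing A] (K : Type)
  [Field K] [Algebra A K] [IsFractionRing A K] (π t : A), Irreducible π → π ∣ t →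
  ∀ d : ℕ, 2 ≤ d → ¬ π ^ d ∣ t → ∀ (T : Type) [Fintype T] (v : Hx d T → K) (b : Hx d T → A),
  (∀ i, algebraMap A K (b i) = algebraMap A K t * v i) → (∀ i, t ^ 2 ∣ b i - spH t d T i) →
  ∀ y : ℕ → K, HRec v y → ¬ ∃ n, 0 < n ∧ ∀ s, y (s + n) = y s

/-- the points of a given period are algebraic over the field of the coefficients -/
def S_halg : Prop := ∀ (O J : Type) [CommRing O] [IsDomain O] [Fintype J]
  (ω : Module.Basis J ℤ O) (d e : ℕ), 2 ≤ d → 0 < e → ∀ (T : Type) [Fintype T] (Ω : Type) [Field Ω]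
  [IsAlgClosed Ω] [Algebra (EE (Hx d T × J)) Ω] (σ : O →+* Ω) (y : ℕ → Ω),
  HRec (cv (fun j => σ (ω j)) (fun q => gn (Hx d T × J) Ω (X q))) y → (∀ t, y (t + e) = y t) →
  ∀ t, IsAlgebraic (EE (Hx d T × J)) (y t)

end Pool.Agent.W275.ND
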